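import Mathlib

/-!
Three-heap Blocking Nim with a block on all three heaps.
-/

namespace Pool.Agent.Results.MP_7e332b_co.BlockOnAllHeaps

/-- `x` is a P-position of three-heap Blocking Nim in which every block is placed on all three
heaps: the player about to announce a block can choose positive forbidden amounts `a 0, a 1, a 2`
such that no legal move of the opponent (removing `t > 0` counters from heap `i`, `t ≤ x i`,
`t ≠ a i`) leads to a P-position. -/
def PPos (x : Fin 3 → ℕ) : Prop :=
  ∃ a : Fin 3 → ℕ, (∀ i, 0 < a i) ∧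
    ∀ i : Fin 3, ∀ t : ℕ, ∀ _ : 0 < t ∧ t ≤ x i ∧ t ≠ a i,
      ¬ PPos (Function.update x i (x i - t))
termination_by x 0 + x 1 + x 2
decreasing_by
  fin_cases i <;> simp_all [Function.update] <;> omega

/-- The xor of the halves. -/
def hx (x : Fin 3 → ℕ) : ℕ := (x 0 / 2) ^^^ (x 1 / 2) ^^^ (x 2 / 2)

theorem hx_update0 (x : Fin 3 → ℕ) (v : ℕ) :
    hx (Function.update x 0 v) = (v / 2) ^^^ ((x 1 / 2) ^^^ (x 2 / 2)) := by
  simp [hx, Function.update, Nat.xor_assoc]

theorem hx_update1 (x : Fin 3 → ℕ) (v : ℕ) :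
    hx (Function.update x 1 v) = (v / 2) ^^^ ((x 2 / 2) ^^^ (x 0 / 2)) := by
  simp only [hx, Function.update]
  simp only [Fin.reduceEq, ↓reduceDIte]
  rw [Nat.xor_comm (x 0 / 2) (v / 2), Nat.xor_assoc, Nat.xor_comm (x 0 / 2)]

theorem hx_update2 (x : Fin 3 → ℕ) (v : ℕ) :
    hx (Function.update x 2 v) = (v / 2) ^^^ ((x 0 / 2) ^^^ (x 1 / 2)) := by
  simp only [hx, Function.update]
  simp only [Fin.reduceEq, ↓reduceDIte]
  rw [Nat.xor_comm _ (v / 2)]

/-- The xor of the halves of the other two heaps. -/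
def other (x : Fin 3 → ℕ) (i : Fin 3) : ℕ :=
  match i with
  | 0 => (x 1 / 2) ^^^ (x 2 / 2)
  | 1 => (x 2 / 2) ^^^ (x 0 / 2)
  | 2 => (x 0 / 2) ^^^ (x 1 / 2)

theorem hx_update (x : Fin 3 → ℕ) (i : Fin 3) (v : ℕ) :
    hx (Function.update x i v) = (v / 2) ^^^ other x i := by
  fin_cases i
  · exact hx_update0 x v
  · exact hx_update1 x v
  · exact hx_update2 x v

theorem hx_eq (x : Fin 3 → ℕ) (i : Fin 3) : hx x = (x i / 2) ^^^ other x i := by
  have := hx_update x i (x i)
  rwa [Function.update_eq_self] at this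

theorem sum_update_lt (x : Fin 3 → ℕ) (i : Fin 3) (t : ℕ) (h0 : 0 < t) (h1 : t ≤ x i) :
    (Function.update x i (x i - t)) 0 + (Function.update x i (x i - t)) 1 +
      (Function.update x i (x i - t)) 2 < x 0 + x 1 + x 2 := by
  fin_cases i <;> simp_all [Function.update] <;> omega

/-- A triple `(x 0, x 1, x 2)` is a P-position of three-heap Blocking Nim with a block on all three
heaps if and only if the nim-sum of the numbers `⌊x i / 2⌋` is zero. -/
theorem result (x : Fin 3 → ℕ) :
    PPos x ↔ (x 0 / 2) ^^^ (x 1 / 2) ^^^ (x 2 / 2) = 0 := by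
  change PPos x ↔ hx x = 0
  induction hs : x 0 + x 1 + x 2 using Nat.strong_induction_on generalizing x with
  | _ s ih =>
    have ih' : ∀ i : Fin 3, ∀ t : ℕ, 0 < t → t ≤ x i →
        (PPos (Function.update x i (x i - t)) ↔ hx (Function.update x i (x i - t)) = 0) := by
      intro i t h0 h1
      exact ih _ (by rw [← hs]; exact sum_update_lt x i t h0 h1) _ rfl
    constructor
    · intro hP
      rw [PPos] at hP
      obtain ⟨a, -, ha⟩ := hP
      by_contra hne
      -- find a heap whose half can be lowered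
      obtain ⟨i, hi⟩ : ∃ i : Fin 3, other x i < x i / 2 := by
        rcases Nat.xor_trichotomy hne with h | h | h
        · exact ⟨0, h⟩
        · exact ⟨1, h⟩
        · exact ⟨2, h⟩
      obtain ⟨v, hv1, hv2, hv3⟩ : ∃ v, v / 2 = other x i ∧ v < x i ∧ x i - v ≠ a i := by
        by_cases h : x i - 2 * other x i = a i
        · exact ⟨2 * other x i + 1, by omega, by omega, by omega⟩
        · exact ⟨2 * other x i, by omega, by omega, h⟩
      have h1 := ha i (x i - v) ⟨by omega, by omega, hv3⟩
      rw [ih' i (x i - v) (by omega) (by omega), hx_update] at h1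
      apply h1
      rw [show x i - (x i - v) = v by omega, hv1, Nat.xor_self]
    · intro h0
      rw [PPos]
      refine ⟨fun _ => 1, fun _ => Nat.one_pos, ?_⟩
      rintro i t ⟨ht0, hti, ht1⟩
      have ht1' : t ≠ 1 := ht1
      rw [ih' i t ht0 hti, hx_update]
      rw [hx_eq x i, Nat.xor_eq_zero_iff] at h0
      rw [Nat.xor_eq_zero_iff, ← h0]
      omega

end Pool.Agent.Results.MP_7e332b_co.BlockOnAllHeaps
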